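import Mathlib
import Pool.Agent.Helper19.P3.Defs4

/-!
# Project PS4: the cuts

A squarefree smooth number is cut into pieces of size about `2^h` (in the order of its primes).
-/

namespace Pool.Agent.Helper19.P3

open Finset Pool.Agent.Helper6.Lehmer Pool.Agent.Helper6.LehmerCount Pool.Agent.Helper58.LT

theorem Xq_sub {κ h y q : ℕ} : Xq κ h y q ⊆ Sm κ (h + κ) := by
  unfold Xq
  exact filter_subset _ _

theorem Cq_sub {κ M q : ℕ} : Cq κ M q ⊆ Sm κ M := by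
  unfold Cq
  exact filter_subset _ _

theorem cut_mem_Sm {κ M t : ℕ} : t ∈ Sm κ M ↔ 1 ≤ t ∧ t ≤ 2 ^ M ∧ Squarefree t ∧
    ∀ p ∈ t.primeFactors, p ≤ 2 ^ κ := by
  unfold Sm
  rw [mem_filter, mem_Icc, and_assoc]

theorem cut_mem_Xq {κ h y q u : ℕ} : u ∈ Xq κ h y q ↔ u ∈ Sm κ (h + κ) ∧ q ∈ u.primeFactors ∧
    (∀ p ∈ u.primeFactors, y < p ∧ p ≤ q) ∧ 2 ^ h ≤ u ∧ u < 2 ^ h * q := by
  unfold Xq
  rw [mem_filter]

theorem cut_mem_Cq {κ M q v : ℕ} : v ∈ Cq κ M q ↔ v ∈ Sm κ M ∧ ∀ p ∈ v.primeFactors, q < p := by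
  unfold Cq
  rw [mem_filter]

theorem cut_mem {κ h y t : ℕ} {R : ℕ → Finset ℕ} : t ∈ cutS κ h R y ↔
    ∃ q, q ≤ 2 ^ κ ∧ ∃ u ∈ Xq κ h y q, ∃ v ∈ R q, u * v = t := by
  unfold cutS
  rw [mem_biUnion]
  constructor
  · rintro ⟨q, hq, ht⟩
    obtain ⟨⟨u, v⟩, hz, rfl⟩ := mem_image.mp ht
    obtain ⟨hu, hv⟩ := mem_product.mp hz
    exact ⟨q, Nat.lt_succ_iff.mp (mem_range.mp hq), u, hu, v, hv, rfl⟩
  · rintro ⟨q, hq, u, hu, v, hv, rfl⟩
    exact ⟨q, mem_range.mpr (Nat.lt_succ_of_le hq), mem_image.mpr ⟨(u, v),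
      mem_product.mpr ⟨hu, hv⟩, rfl⟩⟩

/-- the rest of a cut -/
def CutGood (κ M : ℕ) (R : ℕ → Finset ℕ) : Prop :=
  ∀ q, ∀ v ∈ R q, v ∈ Sm κ M ∧ ∀ p ∈ v.primeFactors, q < p

theorem cutGood_Cq {κ M : ℕ} : CutGood κ M (Cq κ M) := fun _ _ hv => cut_mem_Cq.mp hv

theorem cut_coprime {q u v : ℕ} (hu0 : u ≠ 0) (hv0 : v ≠ 0)
    (hu : ∀ p ∈ u.primeFactors, p ≤ q) (hv : ∀ p ∈ v.primeFactors, q < p) : u.Coprime v := by
  refine Nat.coprime_of_dvd fun p hp h1 h2 => ?_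
  have e1 := hu p (Nat.mem_primeFactors.mpr ⟨hp, h1, hu0⟩)
  have e2 := hv p (Nat.mem_primeFactors.mpr ⟨hp, h2, hv0⟩)
  omega

theorem cut_filter {q u v : ℕ} (hu0 : u ≠ 0) (hv0 : v ≠ 0)
    (hu : ∀ p ∈ u.primeFactors, p ≤ q) (hv : ∀ p ∈ v.primeFactors, q < p) :
    (u * v).primeFactors.filter (fun p => p ≤ q) = u.primeFactors := by
  rw [Nat.primeFactors_mul hu0 hv0, filter_union]
  have h1 : u.primeFactors.filter (fun p => p ≤ q) = u.primeFactors := filter_true_of_mem hu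
  have h2 : v.primeFactors.filter (fun p => p ≤ q) = ∅ :=
    filter_false_of_mem fun p hp => not_le.mpr (hv p hp)
  rw [h1, h2, union_empty]

theorem cut_good {κ h M : ℕ} {R : ℕ → Finset ℕ} (hR : CutGood κ M R) :
    CutGood κ (h + κ + M) (cutS κ h R) := by
  intro y t ht
  obtain ⟨q, hq, u, hu, v, hv, rfl⟩ := cut_mem.mp ht
  obtain ⟨hu1, huq, hup, -, -⟩ := cut_mem_Xq.mp hu
  obtain ⟨hu2, hu3, hu4, hu5⟩ := cut_mem_Sm.mp hu1
  obtain ⟨hv1, hvp⟩ := hR q v hv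
  obtain ⟨hv2, hv3, hv4, hv5⟩ := cut_mem_Sm.mp hv1
  have hu0 : u ≠ 0 := by omega
  have hv0 : v ≠ 0 := by omega
  have hco := cut_coprime hu0 hv0 (fun p hp => (hup p hp).2) hvp
  refine ⟨cut_mem_Sm.mpr ⟨?_, ?_, ?_, ?_⟩, ?_⟩
  · exact Nat.one_le_iff_ne_zero.mpr (mul_ne_zero hu0 hv0)
  · rw [pow_add]
    exact Nat.mul_le_mul hu3 hv3
  · exact (Nat.squarefree_mul hco).mpr ⟨hu4, hv4⟩
  · intro p hp
    rw [Nat.primeFactors_mul hu0 hv0, mem_union] at hp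
    exact hp.elim (hu5 p) (hv5 p)
  · intro p hp
    rw [Nat.primeFactors_mul hu0 hv0, mem_union] at hp
    rcases hp with hp | hp
    · exact (hup p hp).1
    · exact (hup q huq).1.trans (hvp p hp)

theorem Tall3_sub {κ h M : ℕ} : Tall3 κ h M ⊆ Sm κ (3 * (h + κ) + M) := by
  intro t ht
  unfold Tall3 at ht
  have h1 := (cut_good (h := h) (cut_good (h := h) (cut_good (h := h)
    (cutGood_Cq (κ := κ) (M := M)))) 0 t ht).1
  have h2 : 3 * (h + κ) + M = h + κ + (h + κ + (h + κ + M)) := by ring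
  rw [h2]
  exact h1

theorem cut_prod {t : ℕ} (h : Squarefree t) : ∏ p ∈ t.primeFactors, p = t :=
  Nat.prod_primeFactors_of_squarefree h

/-- the sum over a cut -/
theorem cut_sum {κ h M y : ℕ} {R : ℕ → Finset ℕ} (hR : CutGood κ M R) (F : ℕ → ℂ)
    (hF : ∀ a b, a ≠ 0 → b ≠ 0 → F (a * b) = F a * F b) :
    ∑ t ∈ cutS κ h R y, F t =
      ∑ q ∈ range (2 ^ κ + 1), (∑ u ∈ Xq κ h y q, F u) * ∑ v ∈ R q, F v := by
  have hu : ∀ q, ∀ u ∈ Xq κ h y q, u ≠ 0 ∧ Squarefree u ∧ (∀ p ∈ u.primeFactors, p ≤ q) ∧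
      2 ^ h ≤ u ∧ u < 2 ^ h * q ∧ q ∈ u.primeFactors := by
    intro q u hu
    obtain ⟨hu1, huq, hup, h4, h5⟩ := cut_mem_Xq.mp hu
    obtain ⟨hu2, hu3, hu4, hu5⟩ := cut_mem_Sm.mp hu1
    exact ⟨by omega, hu4, fun p hp => (hup p hp).2, h4, h5, huq⟩
  have hv : ∀ q, ∀ v ∈ R q, v ≠ 0 ∧ ∀ p ∈ v.primeFactors, q < p := by
    intro q v hv
    obtain ⟨hv1, hvp⟩ := hR q v hv
    obtain ⟨hv2, hv3, hv4, hv5⟩ := cut_mem_Sm.mp hv1
    exact ⟨by omega, hvp⟩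
  unfold cutS
  rw [sum_biUnion]
  · refine sum_congr rfl fun q _ => ?_
    rw [sum_image]
    · rw [sum_product, sum_mul_sum]
      refine sum_congr rfl fun u hu' => sum_congr rfl fun v hv' => ?_
      exact hF u v (hu q u hu').1 (hv q v hv').1
    · rintro ⟨u, v⟩ hz ⟨u', v'⟩ hz' he
      obtain ⟨h1, h2⟩ := mem_product.mp hz
      obtain ⟨h1', h2'⟩ := mem_product.mp hz'
      obtain ⟨a0, a1, a2, -, -, -⟩ := hu q u h1
      obtain ⟨b0, b1, b2, -, -, -⟩ := hu q u' h1'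
      obtain ⟨c0, c1⟩ := hv q v h2
      obtain ⟨d0, d1⟩ := hv q v' h2'
      have e1 := cut_filter a0 c0 a2 c1
      have e2 := cut_filter b0 d0 b2 d1
      have he' : u * v = u' * v' := he
      rw [he', e2] at e1
      have e3 : u = u' := by rw [← cut_prod a1, ← cut_prod b1, e1]
      subst e3
      have e4 : v = v' := Nat.eq_of_mul_eq_mul_left (Nat.pos_of_ne_zero a0) he'
      rw [e4]
  · have key : ∀ q q', q < q' → Disjoint
        ((Xq κ h y q ×ˢ R q).image fun z => z.1 * z.2)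
        ((Xq κ h y q' ×ˢ R q').image fun z => z.1 * z.2) := by
      intro q q' hqq
      rw [disjoint_left]
      rintro t ht ht'
      obtain ⟨⟨u, v⟩, hz, rfl⟩ := mem_image.mp ht
      obtain ⟨⟨u', v'⟩, hz', he⟩ := mem_image.mp ht'
      obtain ⟨h1, h2⟩ := mem_product.mp hz
      obtain ⟨h1', h2'⟩ := mem_product.mp hz'
      obtain ⟨a0, a1, a2, a3, -, -⟩ := hu q u h1
      obtain ⟨b0, b1, b2, -, b4, b5⟩ := hu q' u' h1'
      obtain ⟨c0, c1⟩ := hv q v h2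
      obtain ⟨d0, d1⟩ := hv q' v' h2'
      have e1 := cut_filter a0 c0 a2 c1
      have e2 := cut_filter b0 d0 b2 d1
      have he' : u' * v' = u * v := he
      rw [he'] at e2
      have e3 : u ∣ u' := by
        rw [← cut_prod a1, ← cut_prod b1, ← e1, ← e2]
        refine prod_dvd_prod_of_subset _ _ _ fun p hp => ?_
        rw [mem_filter] at hp ⊢
        exact ⟨hp.1, hp.2.trans hqq.le⟩
      have e4 : u.Coprime q' := by
        have hq' : q'.Prime := Nat.prime_of_mem_primeFactors b5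
        refine ((Nat.Prime.coprime_iff_not_dvd hq').mpr fun hd => ?_).symm
        have := a2 q' (Nat.mem_primeFactors.mpr ⟨hq', hd, a0⟩)
        omega
      have e5 : u * q' ∣ u' := e4.mul_dvd_of_dvd_of_dvd e3 (Nat.dvd_of_mem_primeFactors b5)
      have e6 : u * q' ≤ u' := Nat.le_of_dvd (Nat.pos_of_ne_zero b0) e5
      have e7 : u * q' < 2 ^ h * q' := e6.trans_lt b4
      have e8 : u < 2 ^ h := Nat.lt_of_mul_lt_mul_right e7
      omega
    intro q _ q' _ hne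
    rcases lt_or_gt_of_ne hne with h' | h'
    · exact key q q' h'
    · exact (key q' q h').symm

theorem cut3_sum {κ h M : ℕ} (hh : 1 ≤ h) (F : ℕ → ℂ)
    (hF : ∀ a b, a ≠ 0 → b ≠ 0 → F (a * b) = F a * F b) :
    ∑ t ∈ Tall3 κ h M, F t =
      ∑ q ∈ Q3 κ, (∏ j, ∑ x ∈ X3 κ h q j, F x) * ∑ c ∈ Cq κ M q.2.2, F c := by
  have g3 := cutGood_Cq (κ := κ) (M := M)
  have g2 := cut_good (h := h) g3
  have g1 := cut_good (h := h) g2
  unfold Tall3
  rw [cut_sum g1 F hF, Q3, sum_product]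
  refine sum_congr rfl fun q1 _ => ?_
  rw [cut_sum g2 F hF, sum_product, mul_sum]
  refine sum_congr rfl fun q2 _ => ?_
  rw [cut_sum g3 F hF, mul_sum, mul_sum]
  refine sum_congr rfl fun q3 _ => ?_
  rw [Fin.prod_univ_three]
  have x0 : X3 κ h (q1, q2, q3) 0 = Xq κ h 0 q1 := rfl
  have x1 : X3 κ h (q1, q2, q3) 1 = Xq κ h q1 q2 := rfl
  have x2 : X3 κ h (q1, q2, q3) 2 = Xq κ h q2 q3 := rfl
  rw [x0, x1, x2]
  ring

/-- one cut exists -/
theorem cut_one {κ h y t : ℕ} (hh : 1 ≤ h) (ht : Squarefree t)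
    (hp : ∀ p ∈ t.primeFactors, y < p ∧ p ≤ 2 ^ κ) (hb : 2 ^ h ≤ t) :
    ∃ q, q ≤ 2 ^ κ ∧ ∃ u ∈ Xq κ h y q, ∃ v, u * v = t ∧ Squarefree v ∧
      ∀ p ∈ v.primeFactors, q < p ∧ p ≤ 2 ^ κ := by
  classical
  have hpr : ∀ (P : ℕ → Prop) [DecidablePred P], ∀ p ∈ t.primeFactors.filter P, p.Prime :=
    fun P _ p hp => Nat.prime_of_mem_primeFactors (mem_filter.mp hp).1
  have hex : ∃ n, 2 ^ h ≤ ∏ p ∈ t.primeFactors.filter (fun p => p ≤ n), p := by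
    refine ⟨2 ^ κ, ?_⟩
    rw [filter_true_of_mem fun p hp' => (hp p hp').2, cut_prod ht]
    exact hb
  obtain ⟨q, hq⟩ : ∃ q, q = Nat.find hex := ⟨_, rfl⟩
  have hq1 : 2 ^ h ≤ ∏ p ∈ t.primeFactors.filter (fun p => p ≤ q), p := by
    rw [hq]
    exact Nat.find_spec hex
  have hqκ : q ≤ 2 ^ κ := by
    rw [hq]
    refine Nat.find_min' hex ?_
    rw [filter_true_of_mem fun p hp' => (hp p hp').2, cut_prod ht]
    exact hb
  have h2h : 2 ≤ 2 ^ h := by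
    calc 2 = 2 ^ 1 := rfl
      _ ≤ 2 ^ h := Nat.pow_le_pow_right (by norm_num) hh
  have hq0 : q ≠ 0 := by
    rintro rfl
    rw [filter_false_of_mem, prod_empty] at hq1
    · omega
    · intro p hp'
      have := (Nat.prime_of_mem_primeFactors hp').two_le
      omega
  have hlt : ∏ p ∈ t.primeFactors.filter (fun p => p ≤ q - 1), p < 2 ^ h := by
    have := Nat.find_min hex (m := q - 1) (by omega)
    omega
  have hqm : q ∈ t.primeFactors := by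
    by_contra hcon
    have : t.primeFactors.filter (fun p => p ≤ q) = t.primeFactors.filter (fun p => p ≤ q - 1) := by
      refine filter_congr fun p hp' => ?_
      have hne : p ≠ q := by
        rintro rfl
        exact hcon hp'
      constructor <;> intro _ <;> omega
    rw [this] at hq1
    omega
  have hins : t.primeFactors.filter (fun p => p ≤ q) =
      insert q (t.primeFactors.filter (fun p => p ≤ q - 1)) := by
    ext p
    rw [mem_insert, mem_filter, mem_filter]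
    constructor
    · rintro ⟨h1, h2⟩
      rcases eq_or_ne p q with h3 | h3
      · exact Or.inl h3
      · exact Or.inr ⟨h1, by omega⟩
    · rintro (h1 | ⟨h1, h2⟩)
      · rw [h1]
        exact ⟨hqm, le_rfl⟩
      · exact ⟨h1, by omega⟩
  have hnotin : q ∉ t.primeFactors.filter (fun p => p ≤ q - 1) := by
    rw [mem_filter]
    rintro ⟨-, h1⟩
    omega
  obtain ⟨u, hu⟩ : ∃ u, u = ∏ p ∈ t.primeFactors.filter (fun p => p ≤ q), p := ⟨_, rfl⟩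
  obtain ⟨v, hv⟩ : ∃ v, v = ∏ p ∈ t.primeFactors.filter (fun p => ¬ p ≤ q), p := ⟨_, rfl⟩
  have huv : u * v = t := by
    rw [hu, hv, prod_filter_mul_prod_filter_not, cut_prod ht]
  have hupf : u.primeFactors = t.primeFactors.filter (fun p => p ≤ q) := by
    rw [hu, Nat.primeFactors_prod (hpr _)]
  have hvpf : v.primeFactors = t.primeFactors.filter (fun p => ¬ p ≤ q) := by
    rw [hv, Nat.primeFactors_prod (hpr _)]
  have hult : u < 2 ^ h * q := by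
    rw [hu, hins, prod_insert hnotin, mul_comm]
    exact Nat.mul_lt_mul_of_pos_right hlt (Nat.pos_of_ne_zero hq0)
  have ht0 : t ≠ 0 := ht.ne_zero
  have hu0 : u ≠ 0 := fun h0 => ht0 (by rw [← huv, h0, zero_mul])
  refine ⟨q, hqκ, u, cut_mem_Xq.mpr ⟨cut_mem_Sm.mpr ⟨by omega, ?_, ?_, ?_⟩, ?_, ?_, ?_, hult⟩, v,
    huv, ?_, ?_⟩
  · calc u ≤ 2 ^ h * q := hult.le
      _ ≤ 2 ^ h * 2 ^ κ := Nat.mul_le_mul_left _ hqκ
      _ = 2 ^ (h + κ) := (pow_add _ _ _).symm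
  · exact ht.squarefree_of_dvd ⟨v, huv.symm⟩
  · intro p hp'
    rw [hupf, mem_filter] at hp'
    exact (hp p hp'.1).2
  · rw [hupf, mem_filter]
    exact ⟨hqm, le_rfl⟩
  · intro p hp'
    rw [hupf, mem_filter] at hp'
    exact ⟨(hp p hp'.1).1, hp'.2⟩
  · rw [hu]
    exact hq1
  · exact ht.squarefree_of_dvd ⟨u, by rw [mul_comm, huv]⟩
  · intro p hp'
    rw [hvpf, mem_filter] at hp'
    exact ⟨not_le.mp hp'.2, (hp p hp'.1).2⟩

/-- sizes of the rest of a cut -/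
theorem cut_size {κ h a y q u v : ℕ} (hq : q ≤ 2 ^ κ) (hu : u ∈ Xq κ h y q)
    (hb : 2 ^ (a + h + κ) ≤ u * v) : 2 ^ a ≤ v := by
  obtain ⟨-, -, -, -, h5⟩ := cut_mem_Xq.mp hu
  by_contra hcon
  have h6 : v < 2 ^ a := not_le.mp hcon
  have h7 : u ≤ 2 ^ (h + κ) := by
    calc u ≤ 2 ^ h * q := h5.le
      _ ≤ 2 ^ h * 2 ^ κ := Nat.mul_le_mul_left _ hq
      _ = 2 ^ (h + κ) := (pow_add _ _ _).symm
  have h8 : u * v < 2 ^ (h + κ) * 2 ^ a := by
    calc u * v ≤ 2 ^ (h + κ) * v := Nat.mul_le_mul_right _ h7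
      _ < 2 ^ (h + κ) * 2 ^ a := Nat.mul_lt_mul_of_pos_left h6 (by positivity)
  have h9 : 2 ^ (h + κ) * 2 ^ a = 2 ^ (a + h + κ) := by
    rw [← pow_add]
    congr 1
    ring
  omega

theorem cut_size' {κ h a y q u v : ℕ} (hu : u ∈ Xq κ h y q)
    (hb : u * v ≤ 2 ^ (h + a)) : v ≤ 2 ^ a := by
  obtain ⟨-, -, -, h4, -⟩ := cut_mem_Xq.mp hu
  have h5 : 2 ^ h * v ≤ 2 ^ h * 2 ^ a := by
    calc 2 ^ h * v ≤ u * v := Nat.mul_le_mul_right _ h4
      _ ≤ 2 ^ (h + a) := hb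
      _ = 2 ^ h * 2 ^ a := pow_add _ _ _
  exact Nat.le_of_mul_le_mul_left h5 (by positivity)

theorem mem_Tall3 {κ h M t : ℕ} (hh : 1 ≤ h) (ht : t ∈ Sm κ (3 * h + M))
    (h2 : 2 ^ (3 * h + 2 * κ) ≤ t) : t ∈ Tall3 κ h M := by
  obtain ⟨t1, t2, t3, t4⟩ := cut_mem_Sm.mp ht
  have ppos : ∀ p ∈ t.primeFactors, 0 < p ∧ p ≤ 2 ^ κ := fun p hp =>
    ⟨(Nat.prime_of_mem_primeFactors hp).pos, t4 p hp⟩
  have hb0 : 2 ^ h ≤ t := le_trans (Nat.pow_le_pow_right (by norm_num) (by omega)) h2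
  obtain ⟨q1, hq1, u1, hu1, v1, e1, s1, p1⟩ := cut_one hh t3 ppos hb0
  have b1 : 2 ^ (2 * h + κ) ≤ v1 := by
    refine cut_size hq1 hu1 (h := h) ?_
    rw [e1]
    refine le_trans (Nat.pow_le_pow_right (by norm_num) (by omega)) h2
  have c1 : v1 ≤ 2 ^ (2 * h + M) := by
    refine cut_size' hu1 ?_
    rw [e1]
    refine t2.trans (Nat.pow_le_pow_right (by norm_num) (by omega))
  obtain ⟨q2, hq2, u2, hu2, v2, e2, s2, p2⟩ := cut_one hh s1 p1
    (le_trans (Nat.pow_le_pow_right (by norm_num) (by omega)) b1)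
  have b2 : 2 ^ h ≤ v2 := by
    refine cut_size hq2 hu2 (h := h) ?_
    rw [e2]
    refine le_trans (Nat.pow_le_pow_right (by norm_num) (by omega)) b1
  have c2 : v2 ≤ 2 ^ (h + M) := by
    refine cut_size' hu2 ?_
    rw [e2]
    refine c1.trans (Nat.pow_le_pow_right (by norm_num) (by omega))
  obtain ⟨q3, hq3, u3, hu3, v3, e3, s3, p3⟩ := cut_one hh s2 p2 b2
  have c3 : v3 ≤ 2 ^ M := by
    refine cut_size' hu3 ?_
    rw [e3]
    exact c2
  unfold Tall3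
  refine cut_mem.mpr ⟨q1, hq1, u1, hu1, v1, cut_mem.mpr ⟨q2, hq2, u2, hu2, v2,
    cut_mem.mpr ⟨q3, hq3, u3, hu3, v3, cut_mem_Cq.mpr ⟨cut_mem_Sm.mpr ⟨?_, c3, s3,
      fun p hp => (p3 p hp).2⟩, fun p hp => (p3 p hp).1⟩, e3⟩, e2⟩, e1⟩
  exact Nat.one_le_iff_ne_zero.mpr s3.ne_zero

end Pool.Agent.Helper19.P3
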